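import Pool.Agent.H.MP_99184a_co.B

set_option autoImplicit false
open Polynomial LaurentPolynomial

namespace Pool.Agent.Results.MP_99184a_co.Yes

/-- The symmetrisation x(q) x(1/q). -/
noncomputable def symm (x : ℤ[X]) : LaurentPolynomial ℤ := toLaurent x * invert (toLaurent x)

/-- d = q^(deg c) (q^s X + C) / (mirror image of r). -/
def Mut (s : ℤ) (x c r d : ℤ[X]) : Prop :=
  toLaurent d * toLaurent r.reverse = T c.natDegree * (T s * symm x + symm c)

/-- Triples of the mirror Markov tree, with the sign of the mutation that produced them. -/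
inductive Node : ℤ[X] → ℤ[X] → ℤ[X] → ℤ → Prop
  | root : Node 1 (1 + X) (1 + 2 * X + 2 * X ^ 2) 1
  | left {a b c d : ℤ[X]} {s : ℤ} : Node a b c s → Mut s a c b d → Node a c d s
  | right {a b c d : ℤ[X]} {s : ℤ} : Node a b c s → Mut (-s) b c a d → Node b c d (-s)

theorem result (a b c : ℤ[X]) (s : ℤ) (h : Node a b c s) :
    (∀ m ∈ [a, b, c], ∀ j ≤ m.natDegree, 0 < m.coeff j) ∧
      (∃! d, Mut s a c b d) ∧ (∃! d, Mut (-s) b c a d) := by
  have key : Pool.Agent.H.MP_99184a_co.NI a b c s := by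
    induction h with
    | root => exact Pool.Agent.H.MP_99184a_co.ni0
    | left _ hm ih =>
      obtain ⟨e, h1, h2⟩ := ih.left
      obtain ⟨-, -, -, -, -, -, -, pb, -⟩ := ih
      rwa [Pool.Agent.H.MP_99184a_co.Mu.uniq pb hm h1]
    | right _ hm ih =>
      obtain ⟨e, h1, h2⟩ := ih.right
      obtain ⟨-, -, -, -, -, -, pa, -⟩ := ih
      rwa [Pool.Agent.H.MP_99184a_co.Mu.uniq pa hm h1]
  obtain ⟨d, h1, -⟩ := key.left
  obtain ⟨e, h2, -⟩ := key.right
  obtain ⟨-, -, -, -, -, -, pa, pb, pc, -⟩ := key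
  refine ⟨?_, ⟨d, h1, fun y hy => Pool.Agent.H.MP_99184a_co.Mu.uniq pb hy h1⟩,
    ⟨e, h2, fun y hy => Pool.Agent.H.MP_99184a_co.Mu.uniq pa hy h2⟩⟩
  intro m hm
  simp only [List.mem_cons, List.not_mem_nil, or_false] at hm
  rcases hm with rfl | rfl | rfl
  · exact pa
  · exact pb
  · exact pc

end Pool.Agent.Results.MP_99184a_co.Yes
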